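import Pool.Agent.U834.GSP.StmA

/-!
# Project GSP, package UNT: unitarisation
-/

set_option autoImplicit false

open scoped Matrix.Norms.L2Operator Matrix MatrixOrder ComplexOrder
open Finset
namespace Pool.Agent.U928.GSP.UNT
open Pool.Agent.U834.GSP

theorem t_UNT : S_UNT := by
  intro m r 𝒜 ρ T hT hρ
  have hpos : (Tᴴ * T).PosDef := by
    apply Matrix.PosDef.conjTranspose_mul_self
    intro x y hxy
    rw [← sub_eq_zero]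
    apply hT
    have : T *ᵥ x = T *ᵥ y := hxy
    rw [Matrix.mulVec_sub, this, sub_self]
  obtain ⟨S0, hS0⟩ := CStarAlgebra.nonneg_iff_eq_star_mul_self.1 hpos.posSemidef.nonneg
  have hS1 : Tᴴ * T = S0ᴴ * S0 := hS0
  have hu : IsUnit S0 := by
    rw [Matrix.isUnit_iff_isUnit_det]
    have h1 := (Matrix.isUnit_iff_isUnit_det _).1 hpos.isUnit
    rw [hS1, Matrix.det_mul] at h1
    exact isUnit_of_mul_isUnit_right h1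
  obtain ⟨S, rfl⟩ := hu
  refine ⟨S, fun a => ?_⟩
  have hstar : ((star a : 𝒜) : Matrix (Fin m) (Fin m) ℂ) = (a : Matrix (Fin m) (Fin m) ℂ)ᴴ := rfl
  have h1 : (ρ a)ᴴ * ((S : Matrix (Fin r) (Fin r) ℂ)ᴴ * S) =
      ((S : Matrix (Fin r) (Fin r) ℂ)ᴴ * S) * ρ (star a) := by
    rw [← hS1, ← Matrix.mul_assoc, ← Matrix.conjTranspose_mul, ← hρ a, Matrix.conjTranspose_mul,
      Matrix.mul_assoc, Matrix.mul_assoc, ← hρ (star a), hstar]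
  have h2 : (S : Matrix (Fin r) (Fin r) ℂ) * ((S⁻¹ : (Matrix (Fin r) (Fin r) ℂ)ˣ) : Matrix (Fin r) (Fin r) ℂ) = 1 :=
    S.mul_inv
  have h3 : ((S⁻¹ : (Matrix (Fin r) (Fin r) ℂ)ˣ) : Matrix (Fin r) (Fin r) ℂ)ᴴ * (S : Matrix (Fin r) (Fin r) ℂ)ᴴ = 1 := by
    rw [← Matrix.conjTranspose_mul, h2, Matrix.conjTranspose_one]
  rw [Matrix.conjTranspose_mul, Matrix.conjTranspose_mul]
  calc (S : Matrix (Fin r) (Fin r) ℂ) * ρ (star a) * ((S⁻¹ : (Matrix (Fin r) (Fin r) ℂ)ˣ) : Matrix (Fin r) (Fin r) ℂ)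
      = (((S⁻¹ : (Matrix (Fin r) (Fin r) ℂ)ˣ) : Matrix (Fin r) (Fin r) ℂ)ᴴ * (S : Matrix (Fin r) (Fin r) ℂ)ᴴ) *
        ((S : Matrix (Fin r) (Fin r) ℂ) * ρ (star a) * ((S⁻¹ : (Matrix (Fin r) (Fin r) ℂ)ˣ) : Matrix (Fin r) (Fin r) ℂ)) := by
        rw [h3, Matrix.one_mul]
    _ = ((S⁻¹ : (Matrix (Fin r) (Fin r) ℂ)ˣ) : Matrix (Fin r) (Fin r) ℂ)ᴴ *
        (((S : Matrix (Fin r) (Fin r) ℂ)ᴴ * S) * ρ (star a)) * ((S⁻¹ : (Matrix (Fin r) (Fin r) ℂ)ˣ) : Matrix (Fin r) (Fin r) ℂ) := by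
        simp only [Matrix.mul_assoc]
    _ = ((S⁻¹ : (Matrix (Fin r) (Fin r) ℂ)ˣ) : Matrix (Fin r) (Fin r) ℂ)ᴴ *
        ((ρ a)ᴴ * ((S : Matrix (Fin r) (Fin r) ℂ)ᴴ * S)) * ((S⁻¹ : (Matrix (Fin r) (Fin r) ℂ)ˣ) : Matrix (Fin r) (Fin r) ℂ) := by
        rw [h1]
    _ = ((S⁻¹ : (Matrix (Fin r) (Fin r) ℂ)ˣ) : Matrix (Fin r) (Fin r) ℂ)ᴴ *
        ((ρ a)ᴴ * (S : Matrix (Fin r) (Fin r) ℂ)ᴴ) *
        ((S : Matrix (Fin r) (Fin r) ℂ) * ((S⁻¹ : (Matrix (Fin r) (Fin r) ℂ)ˣ) : Matrix (Fin r) (Fin r) ℂ)) := by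
        simp only [Matrix.mul_assoc]
    _ = _ := by rw [h2, Matrix.mul_one]

end Pool.Agent.U928.GSP.UNT
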